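import Pool.Agent.H76.SW.T

/-!
Homomorphisms from the canonical database of a term.
-/

set_option autoImplicit false

namespace Pool.Agent.H70.SW

open Pool.Agent.H76.SW

/-- The values of the positions of a node, given the values of the positions of its children. -/
theorem node_aux {A V : Type} {n m : ℕ} (src tgt : Fin m → Fin n) (ch : Fin m → Term A)
    (p q : Fin n) (E : V → A → V → Prop) (μ : Fin n → V)
    (h : ∀ i, ∃ f : (ch i).Pos → V, f ((ch i).pt false) = μ (src i) ∧
      f ((ch i).pt true) = μ (tgt i) ∧ (∀ x y, (ch i).stp x none y → f x = f y) ∧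
      ∀ x a y, (ch i).stp x (some (a, true)) y → E (f x) a (f y)) :
    ∃ F : (Term.node n m src tgt ch p q).Pos → V,
      (∀ v, F (Sum.inl v) = μ v) ∧
      (∀ x y, (Term.node n m src tgt ch p q).stp x none y → F x = F y) ∧
      ∀ x a y, (Term.node n m src tgt ch p q).stp x (some (a, true)) y → E (F x) a (F y) := by
  choose f h1 h2 h3 h4 using h
  refine ⟨fun z => Sum.elim μ (fun x : Σ i : Fin m, (ch i).Pos => f x.1 x.2) z, fun v => rfl,
    ?_, ?_⟩
  · intro x y hs
    rcases hs with ⟨i, x', y', rfl, rfl, hs⟩ | ⟨-, i, b, ⟨rfl, rfl⟩ | ⟨rfl, rfl⟩⟩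
    · exact h3 i x' y' hs
    · cases b
      · exact (h1 i).symm
      · exact (h2 i).symm
    · cases b
      · exact h1 i
      · exact h2 i
  · intro x a y hs
    rcases hs with ⟨i, x', y', rfl, rfl, hs⟩ | ⟨hl, -⟩
    · exact h4 i x' a y' hs
    · exact absurd hl (by simp)

/-- The values of the positions of a term. -/
theorem term_aux {A V : Type} (E : V → A → V → Prop) (T : Term A) :
    ∀ u v, T.Sat E u v → ∃ f : T.Pos → V, f (T.pt false) = u ∧ f (T.pt true) = v ∧
      (∀ x y, T.stp x none y → f x = f y) ∧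
      ∀ x a y, T.stp x (some (a, true)) y → E (f x) a (f y) := by
  induction T with
  | edge a =>
    intro u v h
    refine ⟨(fun b : Bool => cond b v u : Bool → V), rfl, rfl, ?_, ?_⟩
    · intro x y hs
      rcases hs with ⟨-, hl, -⟩ | ⟨-, hl, -⟩
      · exact absurd hl (by simp)
      · exact absurd hl (by simp)
    · intro (x : Bool) b (y : Bool) hs
      rcases hs with ⟨hx, hl, hy⟩ | ⟨-, hl, -⟩
      · have hb : b = a := (Prod.mk.inj (Option.some.inj hl)).1
        have hx' : x = false := hx
        have hy' : y = true := hy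
        subst hx' hy' hb
        exact h
      · exact absurd hl (by simp)
  | node n m src tgt ch p q ih =>
    rintro u v ⟨μ, h, rfl, rfl⟩
    obtain ⟨F, h1, h2, h3⟩ := node_aux src tgt ch p q E μ (fun i => ih i _ _ (h i))
    exact ⟨F, h1 p, h1 q, h2, h3⟩

theorem pf_S8 : U_s8_hom := by
  intro A V n m src tgt ch p q E μ h
  obtain ⟨F, h1, h2, h3⟩ := node_aux src tgt ch p q E μ (fun i => term_aux E (ch i) _ _ (h i))
  refine ⟨Quot.lift F h2, fun v => h1 v, ?_⟩
  rintro x a y ⟨x', y', rfl, rfl, hs⟩
  exact h3 x' a y' hs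

end Pool.Agent.H70.SW
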