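import Pool.Agent.H76.SW.CT

/-!
The evaluation of coded unions of queries is primitive recursive.
-/

set_option autoImplicit false

namespace Pool.Agent.H70.SW

open Pool.Agent.H76.SW

theorem ex_list {α β : Type} [Primcodable α] [Primcodable β] {L : α → List β}
    {R : α → β → Prop} (hL : Primrec L) (hR : PrimrecPred fun x : α × β => R x.1 x.2) :
    PrimrecPred fun a => ∃ b ∈ L a, R a b := by
  have h : PrimrecRel (fun (b : β) (a : α) => R a b) :=
    hR.comp (Primrec.pair Primrec.snd Primrec.fst)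
  exact h.exists_mem_list.comp hL Primrec.id

theorem all_list {α β : Type} [Primcodable α] [Primcodable β] {L : α → List β}
    {R : α → β → Prop} (hL : Primrec L) (hR : PrimrecPred fun x : α × β => R x.1 x.2) :
    PrimrecPred fun a => ∀ b ∈ L a, R a b := by
  have h : PrimrecRel (fun (b : β) (a : α) => R a b) :=
    hR.comp (Primrec.pair Primrec.snd Primrec.fst)
  exact h.forall_mem_list.comp hL Primrec.id

theorem mem_list {α β : Type} [Primcodable α] [Primcodable β] {L : α → List β} {f : α → β}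
    (hL : Primrec L) (hf : Primrec f) : PrimrecPred fun a => f a ∈ L a := by
  have h : PrimrecPred fun a => ∃ b ∈ L a, b = f a :=
    ex_list hL (Primrec.eq.comp Primrec.snd (hf.comp Primrec.fst))
  exact h.of_eq fun a => by simp

/-- Satisfaction of an atom. -/
theorem atSat_pr (h2 : V_RP) :
    PrimrecPred fun p : (GrC × AutC) × (ℕ × ℕ) => AtSat p.1.1 p.1.2 p.2.1 p.2.2 := by
  have hE : Primrec fun x : (((GrC × AutC) × (ℕ × ℕ)) × ℕ) × ℕ => x.1.1.1.1 :=
    Primrec.fst.comp (Primrec.fst.comp (Primrec.fst.comp Primrec.fst))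
  have hX : Primrec fun x : (((GrC × AutC) × (ℕ × ℕ)) × ℕ) × ℕ => x.1.1.1.2.2 :=
    Primrec.snd.comp (Primrec.snd.comp (Primrec.fst.comp (Primrec.fst.comp Primrec.fst)))
  have hu : Primrec fun x : (((GrC × AutC) × (ℕ × ℕ)) × ℕ) × ℕ => x.1.1.2.1 :=
    Primrec.fst.comp (Primrec.snd.comp (Primrec.fst.comp Primrec.fst))
  have hv : Primrec fun x : (((GrC × AutC) × (ℕ × ℕ)) × ℕ) × ℕ => x.1.1.2.2 :=
    Primrec.snd.comp (Primrec.snd.comp (Primrec.fst.comp Primrec.fst))
  have hs : Primrec fun x : (((GrC × AutC) × (ℕ × ℕ)) × ℕ) × ℕ => x.1.2 :=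
    Primrec.snd.comp Primrec.fst
  have hs' : Primrec fun x : (((GrC × AutC) × (ℕ × ℕ)) × ℕ) × ℕ => x.2 := Primrec.snd
  have hL : Primrec fun x : (((GrC × AutC) × (ℕ × ℕ)) × ℕ) × ℕ =>
      reachL x.1.1.1.1 x.1.1.1.2.2 [(x.1.1.2.1, x.1.2)] :=
    h2.comp (Primrec.pair (Primrec.pair hE hX)
      (Primrec.list_cons.comp (Primrec.pair hu hs) (Primrec.const [])))
  have h : PrimrecPred fun x : (((GrC × AutC) × (ℕ × ℕ)) × ℕ) × ℕ =>
      (x.1.1.2.2, x.2) ∈ reachL x.1.1.1.1 x.1.1.1.2.2 [(x.1.1.2.1, x.1.2)] :=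
    mem_list hL (Primrec.pair hv hs')
  have hA : Primrec fun x : ((GrC × AutC) × (ℕ × ℕ)) × ℕ => x.1.1.2.1.2.2 :=
    Primrec.snd.comp (Primrec.snd.comp (Primrec.fst.comp (Primrec.snd.comp
      (Primrec.fst.comp Primrec.fst))))
  have hB : Primrec fun x : (GrC × AutC) × (ℕ × ℕ) => x.1.2.1.2.1 :=
    Primrec.fst.comp (Primrec.snd.comp (Primrec.fst.comp (Primrec.snd.comp Primrec.fst)))
  exact ex_list hB (ex_list hA h)

/-- Satisfaction of a query. -/
theorem cqSat_pr (h1 : V_LP) (h2 : V_RP) :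
    PrimrecPred fun p : (ℕ × GrC) × (CqC × List ℕ) => CqSat p.1.1 p.1.2 p.2.1 p.2.2 := by
  -- the lists of values
  have hL : Primrec fun x : (ℕ × GrC) × (CqC × List ℕ) => lists (List.range x.1.1) x.2.1.1.1 :=
    h1.comp (Primrec.list_range.comp (Primrec.fst.comp Primrec.fst))
      (Primrec.fst.comp (Primrec.fst.comp (Primrec.fst.comp Primrec.snd)))
  have hlen : PrimrecPred fun x : ((ℕ × GrC) × (CqC × List ℕ)) × List ℕ =>
      x.2.length = x.1.2.1.1.1 :=
    Primrec.eq.comp (Primrec.list_length.comp Primrec.snd)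
      (Primrec.fst.comp (Primrec.fst.comp (Primrec.fst.comp (Primrec.snd.comp Primrec.fst))))
  have hout : PrimrecPred fun x : ((ℕ × GrC) × (CqC × List ℕ)) × List ℕ =>
      x.1.2.1.1.2.map (fun i => x.2.getD i 0) = x.1.2.2 := by
    refine Primrec.eq.comp (Primrec.list_map ?_ ?_) (Primrec.snd.comp (Primrec.snd.comp Primrec.fst))
    · exact Primrec.snd.comp (Primrec.fst.comp (Primrec.fst.comp (Primrec.snd.comp Primrec.fst)))
    · exact (Primrec.list_getD 0).comp (Primrec.snd.comp Primrec.fst) Primrec.snd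
  have hat : PrimrecPred fun x : (((ℕ × GrC) × (CqC × List ℕ)) × List ℕ) × AtC =>
      AtSat x.1.1.1.2 x.2.2 (x.1.2.getD x.2.1.1 0) (x.1.2.getD x.2.1.2 0) := by
    have hE : Primrec fun x : (((ℕ × GrC) × (CqC × List ℕ)) × List ℕ) × AtC => x.1.1.1.2 :=
      Primrec.snd.comp (Primrec.fst.comp (Primrec.fst.comp Primrec.fst))
    have hM : Primrec fun x : (((ℕ × GrC) × (CqC × List ℕ)) × List ℕ) × AtC => x.1.2 :=
      Primrec.snd.comp Primrec.fst
    have h3 : Primrec fun x : (((ℕ × GrC) × (CqC × List ℕ)) × List ℕ) × AtC => x.2.2 :=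
      Primrec.snd.comp Primrec.snd
    have h4 : Primrec fun x : (((ℕ × GrC) × (CqC × List ℕ)) × List ℕ) × AtC =>
        x.1.2.getD x.2.1.1 0 :=
      (Primrec.list_getD 0).comp hM (Primrec.fst.comp (Primrec.fst.comp Primrec.snd))
    have h5 : Primrec fun x : (((ℕ × GrC) × (CqC × List ℕ)) × List ℕ) × AtC =>
        x.1.2.getD x.2.1.2 0 :=
      (Primrec.list_getD 0).comp hM (Primrec.snd.comp (Primrec.fst.comp Primrec.snd))
    exact (atSat_pr h2).comp (Primrec.pair (Primrec.pair hE h3) (Primrec.pair h4 h5))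
  have hats : Primrec fun x : ((ℕ × GrC) × (CqC × List ℕ)) × List ℕ => x.1.2.1.2 :=
    Primrec.snd.comp (Primrec.fst.comp (Primrec.snd.comp Primrec.fst))
  have hall : PrimrecPred fun x : ((ℕ × GrC) × (CqC × List ℕ)) × List ℕ =>
      ∀ t ∈ x.1.2.1.2, AtSat x.1.1.2 t.2 (x.2.getD t.1.1 0) (x.2.getD t.1.2 0) :=
    all_list hats hat
  exact ex_list hL (hlen.and (hall.and hout))

theorem pf_CSP (h1 : V_LP) (h2 : V_RP) : V_SP := by
  have h : PrimrecPred fun x : ((ℕ × GrC) × (UqC × List ℕ)) × CqC =>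
      CqSat x.1.1.1 x.1.1.2 x.2 x.1.2.2 :=
    (cqSat_pr h1 h2).comp (Primrec.pair (Primrec.fst.comp Primrec.fst)
      (Primrec.pair Primrec.snd (Primrec.snd.comp (Primrec.snd.comp Primrec.fst))))
  exact ex_list (Primrec.fst.comp Primrec.snd) h

end Pool.Agent.H70.SW
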